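import Pool.Agent.R227.LP14

set_option autoImplicit false

/-!
# MP_ccba21_an, Q2: the isocapacitary inequality for the negative eigenvalue fails

There is a bounded domain `Ω` (a thin rectangle) with transfinite diameter `R > 1` such that
`τ̃₁(Ω) > τ̃₁(B_R)`.
-/

open MeasureTheory Set

namespace Pool.Agent.Results.MP_ccba21_an.CapacityCounterexample

/-- `l` is an eigenvalue of `(𝓛_Ω u)(x) = ∫_Ω log (1/|x-y|) u(y) dy` on `L²(Ω)` -/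
def IsEigenvalue (Ω : Set ℂ) (l : ℝ) : Prop :=
  ∃ u : ℂ → ℝ, MemLp u 2 (volume.restrict Ω) ∧ ¬ (u =ᵐ[volume.restrict Ω] 0) ∧
    ∀ᵐ x ∂(volume.restrict Ω), ∫ y in Ω, Real.log (1 / ‖x - y‖) * u y = l * u x

/-- `sup` over `z₁, …, z_n ∈ E` of `∏_{i<j} |z_i - z_j|^{2/(n(n-1))}` -/
noncomputable def nthDiameter (E : Set ℂ) (n : ℕ) : ℝ :=
  sSup {r | ∃ z : Fin n → ℂ, (∀ i, z i ∈ E) ∧
    r = (∏ i, ∏ j ∈ Finset.Ioi i, ‖z i - z j‖) ^ (2 / ((n : ℝ) * (n - 1)))}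

/-- `T` is the transfinite diameter of `E` -/
def IsTransfiniteDiameter (E : Set ℂ) (T : ℝ) : Prop :=
  Filter.Tendsto (nthDiameter E) Filter.atTop (nhds T)

/-- `τ = τ̃₁(Ω)`: the negative eigenvalue of `𝓛_Ω` if there is one, and `0` otherwise -/
def IsTau (Ω : Set ℂ) (τ : ℝ) : Prop :=
  (τ < 0 ∧ IsEigenvalue Ω τ) ∨ (τ = 0 ∧ ∀ l < 0, ¬ IsEigenvalue Ω l)

theorem result : ∃ Ω : Set ℂ, IsOpen Ω ∧ IsConnected Ω ∧ Bornology.IsBounded Ω ∧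
    ∃ R : ℝ, 1 < R ∧ IsTransfiniteDiameter (closure Ω) R ∧
      (∃! τ, IsTau Ω τ) ∧ (∃! τ, IsTau (Metric.ball 0 R) τ) ∧
      ∀ τ τ', IsTau Ω τ → IsTau (Metric.ball 0 R) τ' → τ' < τ := by
  obtain ⟨A, hA, hc, hb, T, hT, hT2, h1, l, hl, hle⟩ := Pool.Agent.R227.LP.thin
  have hpi := Real.pi_pos
  have hex : ∀ Ω : Set ℂ, IsOpen Ω → Bornology.IsBounded Ω → ∃! τ, IsTau Ω τ := by
    intro Ω hΩ hbd
    obtain ⟨R, hR⟩ := hbd.subset_ball 0
    have hR1 : Ω ⊆ Metric.ball 0 (|R| + 1) := hR.trans (Metric.ball_subset_ball (by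
      have := le_abs_self R
      linarith))
    have hRp : 0 < |R| + 1 := by positivity
    by_cases h : ∃ l < 0, IsEigenvalue Ω l
    · obtain ⟨l, hl, hle⟩ := h
      refine ⟨l, Or.inl ⟨hl, hle⟩, ?_⟩
      rintro τ (⟨h3, h4⟩ | ⟨h3, h4⟩)
      · exact Pool.Agent.R227.LP.eig_unique hRp hΩ.measurableSet hR1 h3 hl h4 hle
      · exact absurd hle (h4 l hl)
    · push Not at h
      refine ⟨0, Or.inr ⟨rfl, h⟩, ?_⟩
      rintro τ (⟨h3, h4⟩ | ⟨h3, h4⟩)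
      · exact absurd h4 (h τ h3)
      · exact h3
  refine ⟨A, hA, hc, hb, T, by linarith, hT, hex A hA hb,
    hex _ Metric.isOpen_ball Metric.isBounded_ball, ?_⟩
  intro τ τ' hτ hτ'
  have hτ1 : -Real.pi < τ := by
    rcases hτ with ⟨_, h3⟩ | ⟨h3, _⟩
    · exact h1 τ h3
    · rw [h3]; linarith
  have hτ2 : τ' ≤ -Real.pi := by
    have h5 : IsTau (Metric.ball 0 T) l := Or.inl ⟨by linarith, hle⟩
    obtain ⟨t, -, ht⟩ := hex (Metric.ball 0 T) Metric.isOpen_ball Metric.isBounded_ball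
    rw [ht τ' hτ', ← ht l h5]
    exact hl
  linarith

end Pool.Agent.Results.MP_ccba21_an.CapacityCounterexample
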