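import Pool.Agent.R227.LP17

set_option autoImplicit false

/-!
# MP_ccba21_an, Q1: the reverse Faber-Krahn inequality for the negative eigenvalue

Every bounded open set `Ω` of the plane satisfies `τ̃₁(Ω) ≤ τ̃₁(Ω*)`, where `Ω*` is the open disc with
the same area.
-/

open MeasureTheory Set

namespace Pool.Agent.Results.MP_ccba21_an.ReverseFaberKrahn

/-- `l` is an eigenvalue of `(𝓛_Ω u)(x) = ∫_Ω log (1/|x-y|) u(y) dy` on `L²(Ω)` -/
def IsEigenvalue (Ω : Set ℂ) (l : ℝ) : Prop :=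
  ∃ u : ℂ → ℝ, MemLp u 2 (volume.restrict Ω) ∧ ¬ (u =ᵐ[volume.restrict Ω] 0) ∧
    ∀ᵐ x ∂(volume.restrict Ω), ∫ y in Ω, Real.log (1 / ‖x - y‖) * u y = l * u x

/-- `τ = τ̃₁(Ω)`: the negative eigenvalue of `𝓛_Ω` if there is one, and `0` otherwise -/
def IsTau (Ω : Set ℂ) (τ : ℝ) : Prop :=
  (τ < 0 ∧ IsEigenvalue Ω τ) ∨ (τ = 0 ∧ ∀ l < 0, ¬ IsEigenvalue Ω l)

theorem result (Ω : Set ℂ) (hΩ : IsOpen Ω) (hb : Bornology.IsBounded Ω) (r : ℝ)
    (hvol : volume (Metric.ball (0 : ℂ) r) = volume Ω) :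
    (∃! τ, IsTau Ω τ) ∧ ∀ τ τ', IsTau Ω τ → IsTau (Metric.ball 0 r) τ' → τ ≤ τ' := by
  obtain ⟨R, hR⟩ := hb.subset_ball 0
  set R' := |R| + |r| + 1 with hR'
  have hRp : 0 < R' := by positivity
  have hR1 : Ω ⊆ Metric.ball 0 R' := hR.trans (Metric.ball_subset_ball (by
    have := le_abs_self R
    have := abs_nonneg r
    linarith))
  have hrR : r ≤ R' := by
    have := le_abs_self r
    have := abs_nonneg R
    linarith
  constructor
  · by_cases h : ∃ l < 0, IsEigenvalue Ω l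
    · obtain ⟨l, hl, hle⟩ := h
      refine ⟨l, Or.inl ⟨hl, hle⟩, ?_⟩
      rintro τ (⟨h3, h4⟩ | ⟨h3, h4⟩)
      · exact Pool.Agent.R227.LP.eig_unique hRp hΩ.measurableSet hR1 h3 hl h4 hle
      · exact absurd hle (h4 l hl)
    · push Not at h
      refine ⟨0, Or.inr ⟨rfl, h⟩, ?_⟩
      rintro τ (⟨h3, h4⟩ | ⟨h3, h4⟩)
      · exact absurd h4 (h τ h3)
      · exact h3
  · intro τ τ' hτ hτ'
    rcases hτ' with ⟨h1, h2⟩ | ⟨h1, _⟩
    · have hv : volume.real Ω = volume.real (Metric.ball (0:ℂ) r) := by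
        rw [Measure.real, Measure.real, hvol]
      obtain ⟨l, hl, hle⟩ := Pool.Agent.R227.LP.faberKrahn hΩ.measurableSet hRp hrR hR1 hv
        (μ := -τ') (by linarith) (by rw [neg_neg]; exact h2)
      rw [neg_neg] at hl
      rcases hτ with ⟨h3, h4⟩ | ⟨h3, h4⟩
      · have := Pool.Agent.R227.LP.eig_unique hRp hΩ.measurableSet hR1 h3 (by linarith) h4 hle
        rw [this]; exact hl
      · exact absurd hle (h4 l (by linarith))
    · rw [h1]
      rcases hτ with ⟨h, _⟩ | ⟨h, _⟩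
      · exact h.le
      · exact h.le

end Pool.Agent.Results.MP_ccba21_an.ReverseFaberKrahn
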